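import Pool.Agent.U352.CI.Eng
import Pool.Agent.W689.Mk.Ht
import Pool.Agent.W689.Mk.Bump

/-!
# Small sets and cut-off functions on a closed affine manifold
-/

set_option autoImplicit false

open Set Filter Topology Metric

namespace Pool.Agent.U352.CI

open Pool.Agent.W689.Mk

section cov
variable {X Γ E : Type} [TopologicalSpace X] [T2Space X] [Group Γ] [MulAction Γ X]
  [NormedAddCommGroup E] [NormedSpace ℝ E] [FiniteDimensional ℝ E] {dev : X → E}

theorem cpt_nhd (hloc : IsLocalHomeomorph dev) (x : X) : ∃ N ∈ 𝓝 x, IsCompact N := by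
  obtain ⟨c, hcp, hcσ⟩ := exists_cht hloc (LL.const (dev := dev) (0 : E)) x
  have ho := c.sec.isOpen_image hloc (V := ball c.p c.r) isOpen_ball
    (ball_subset_ball (by linarith [c.hr]))
  refine ⟨c.σ '' closedBall c.p c.r, ?_, ?_⟩
  · refine mem_of_superset (ho.mem_nhds ⟨dev x, ?_, hcσ⟩) (image_mono ball_subset_closedBall)
    rw [hcp]
    exact mem_ball_self c.hr
  · refine (isCompact_closedBall _ _).image_of_continuousOn (c.sec.cont.mono ?_)
    exact closedBall_subset_ball (by linarith [c.hr])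

theorem disj_nhd (hloc : IsLocalHomeomorph dev) (hcont : ∀ γ : Γ, Continuous fun x : X => γ • x)
    (hpd : ∀ K : Set X, IsCompact K → {γ : Γ | ∃ x ∈ K, γ • x ∈ K}.Finite)
    (hfree : ∀ (γ : Γ) (x : X), γ • x = x → γ = 1) (x : X) :
    ∃ N ∈ 𝓝 x, ∀ γ : Γ, ∀ y ∈ N, γ • y ∈ N → γ = 1 := by
  obtain ⟨K, hK, hKc⟩ := cpt_nhd hloc x
  have hF := hpd K hKc
  have h1 : ∀ γ : Γ, ∃ V ∈ 𝓝 x, γ ≠ 1 → ∀ y ∈ V, γ • y ∉ V := by
    intro γ
    by_cases hγ : γ = 1
    · exact ⟨univ, univ_mem, fun h => absurd hγ h⟩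
    · have hne : x ≠ γ • x := fun h => hγ (hfree γ x h.symm)
      obtain ⟨A, B, hA, hB, hxA, hxB, hd⟩ := t2_separation hne
      refine ⟨A ∩ (fun y => γ • y) ⁻¹' B, (hA.inter (hB.preimage (hcont γ))).mem_nhds ⟨hxA, hxB⟩,
        fun _ y hy hy' => ?_⟩
      exact Set.disjoint_left.1 hd hy'.1 hy.2
  choose V hV hV' using h1
  refine ⟨K ∩ ⋂ γ ∈ hF.toFinset, V γ, inter_mem hK ((Filter.biInter_finset_mem _).2
    fun γ _ => hV γ), ?_⟩
  intro γ y hy hy'
  by_contra hγ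
  have h2 : γ ∈ hF.toFinset := by
    rw [Set.Finite.mem_toFinset]
    exact ⟨y, hy.1, hy'.1⟩
  exact hV' γ hγ y (mem_iInter₂.1 hy.2 γ h2) (mem_iInter₂.1 hy'.2 γ h2)

theorem off_nhd (hloc : IsLocalHomeomorph dev) (hcont : ∀ γ : Γ, Continuous fun x : X => γ • x)
    (hpd : ∀ K : Set X, IsCompact K → {γ : Γ | ∃ x ∈ K, γ • x ∈ K}.Finite)
    {S : Set X} (hS : IsCompact S) {x : X} (hx : ∀ γ : Γ, γ • x ∉ S) :
    ∃ N ∈ 𝓝 x, ∀ y ∈ N, ∀ γ : Γ, γ • y ∉ S := by
  obtain ⟨K, hK, hKc⟩ := cpt_nhd hloc x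
  have hF := hpd (S ∪ K) (hS.union hKc)
  refine ⟨K ∩ ⋂ γ ∈ hF.toFinset, (fun y => γ • y) ⁻¹' Sᶜ, inter_mem hK
    ((Filter.biInter_finset_mem _).2 fun γ _ => ?_), ?_⟩
  · exact (hS.isClosed.isOpen_compl.preimage (hcont γ)).mem_nhds (hx γ)
  · intro y hy γ hγ
    have h2 : γ ∈ hF.toFinset := by
      rw [Set.Finite.mem_toFinset]
      exact ⟨y, Or.inr hy.1, Or.inl hγ⟩
    exact (mem_iInter₂.1 hy.2 γ h2) hγ

/-- the cut-off function at one point -/
theorem bump (hloc : IsLocalHomeomorph dev) {x : X} {N : Set X} (hN : N ∈ 𝓝 x) :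
    ∃ (U S O : Set X) (a : X → ℝ), IsOpen U ∧ IsOpen O ∧ IsCompact S ∧ S ⊆ U ∧ U ⊆ N ∧ O ⊆ U ∧
      x ∈ O ∧ (∀ y, y ∉ S → a y = 0) ∧ (∀ y ∈ O, a y = 1) ∧ (∀ y, 0 ≤ a y) ∧ (∀ y, a y ≤ 1) ∧
      LL dev a := by
  classical
  obtain ⟨c, hcp, hcσ⟩ := exists_cht hloc (LL.const (dev := dev) (0 : E)) x
  have hcr := c.hr
  have hcc : ContinuousAt c.σ (dev x) := by
    refine (c.sec.cont _ ?_).continuousAt (isOpen_ball.mem_nhds ?_)
    · rw [hcp]; exact mem_ball_self (by linarith)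
    · rw [hcp]; exact mem_ball_self (by linarith)
  have h1 : c.σ ⁻¹' N ∈ 𝓝 (dev x) := hcc (by rw [hcσ]; exact hN)
  obtain ⟨r1, hr1, hr1N⟩ := Metric.mem_nhds_iff.1 h1
  set r := min r1 c.r with hr
  have hr0 : 0 < r := lt_min hr1 hcr
  have hrr : r ≤ c.r := min_le_right _ _
  have hsub : ball (dev x) r ⊆ ball c.p (4 * c.r) := by
    rw [hcp]; exact ball_subset_ball (by linarith)
  have hU : IsOpen (c.σ '' ball (dev x) r) := c.sec.isOpen_image hloc isOpen_ball hsub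
  have hO : IsOpen (c.σ '' ball (dev x) (r / 3)) := c.sec.isOpen_image hloc isOpen_ball
    ((ball_subset_ball (by linarith)).trans hsub)
  have hSU : c.σ '' closedBall (dev x) (2 * r / 3) ⊆ c.σ '' ball (dev x) r :=
    image_mono (closedBall_subset_ball (by linarith))
  have hSc : IsCompact (c.σ '' closedBall (dev x) (2 * r / 3)) := by
    refine (isCompact_closedBall _ _).image_of_continuousOn (c.sec.cont.mono ?_)
    exact (closedBall_subset_ball (by linarith)).trans hsub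
  have hdev : ∀ y ∈ c.σ '' ball (dev x) r, dev y ∈ ball (dev x) r ∧ c.σ (dev y) = y := by
    rintro _ ⟨q, hq, rfl⟩
    rw [c.sec.inv q (hsub hq)]
    exact ⟨hq, rfl⟩
  let h : E → ℝ := fun q => max 0 (min 1 (2 - 3 * ‖q - dev x‖ / r))
  have hh0 : ∀ q, 0 ≤ h q := fun q => le_max_left _ _
  have hh1 : ∀ q, h q ≤ 1 := fun q => max_le zero_le_one (min_le_left _ _)
  have hlip : ∀ q q', |h q - h q'| ≤ 3 / r * ‖q - q'‖ := by
    intro q q'
    have e1 : |h q - h q'| ≤ |(2 - 3 * ‖q - dev x‖ / r) - (2 - 3 * ‖q' - dev x‖ / r)| := by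
      have hL : LipschitzWith 1 (fun a : ℝ => max 0 (min 1 a)) :=
        (LipschitzWith.id.const_min 1).const_max 0
      have h2 := hL.dist_le_mul (2 - 3 * ‖q - dev x‖ / r) (2 - 3 * ‖q' - dev x‖ / r)
      rw [Real.dist_eq, Real.dist_eq, NNReal.coe_one, one_mul] at h2
      exact h2
    refine e1.trans ?_
    have e2 : (2 - 3 * ‖q - dev x‖ / r) - (2 - 3 * ‖q' - dev x‖ / r) =
        3 / r * (‖q' - dev x‖ - ‖q - dev x‖) := by ring
    rw [e2, abs_mul, abs_of_pos (by positivity)]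
    gcongr
    have e3 := abs_norm_sub_norm_le (q' - dev x) (q - dev x)
    have e4 : q' - dev x - (q - dev x) = q' - q := by abel
    rw [e4, norm_sub_rev q' q] at e3
    exact e3
  refine ⟨c.σ '' ball (dev x) r, c.σ '' closedBall (dev x) (2 * r / 3),
    c.σ '' ball (dev x) (r / 3), fun y => if y ∈ c.σ '' ball (dev x) r then h (dev y) else 0,
    hU, hO, hSc, hSU, ?_, image_mono (ball_subset_ball (by linarith)), ?_, ?_, ?_, ?_, ?_, ?_⟩
  · rintro _ ⟨q, hq, rfl⟩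
    exact hr1N (ball_subset_ball (min_le_left _ _) hq)
  · exact ⟨dev x, mem_ball_self (by linarith), hcσ⟩
  · intro y hy
    dsimp only
    by_cases hyU : y ∈ c.σ '' ball (dev x) r
    · rw [if_pos hyU]
      have h2 : dev y ∉ closedBall (dev x) (2 * r / 3) := fun h3 =>
        hy ⟨dev y, h3, (hdev y hyU).2⟩
      have h3 : 2 * r / 3 < ‖dev y - dev x‖ := by
        rw [mem_closedBall, dist_eq_norm, not_le] at h2
        exact h2
      have h4 : 2 - 3 * ‖dev y - dev x‖ / r ≤ 0 := by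
        have h5 : 2 ≤ 3 * ‖dev y - dev x‖ / r := by
          rw [le_div_iff₀ hr0]; linarith
        linarith
      show max 0 (min 1 (2 - 3 * ‖dev y - dev x‖ / r)) = 0
      exact max_eq_left ((min_le_right _ _).trans h4)
    · rw [if_neg hyU]
  · intro y hy
    have hyU : y ∈ c.σ '' ball (dev x) r := image_mono (ball_subset_ball (by linarith)) hy
    show (if y ∈ c.σ '' ball (dev x) r then h (dev y) else 0) = 1
    rw [if_pos hyU]
    obtain ⟨q, hq, rfl⟩ := hy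
    rw [c.sec.inv q (hsub (ball_subset_ball (by linarith) hq))]
    rw [mem_ball, dist_eq_norm] at hq
    have h5 : 3 * ‖q - dev x‖ / r ≤ 1 := by
      rw [div_le_iff₀ hr0]; linarith
    show max 0 (min 1 (2 - 3 * ‖q - dev x‖ / r)) = 1
    rw [min_eq_left (by linarith)]
    exact max_eq_right zero_le_one
  · intro y
    dsimp only
    split_ifs
    · exact hh0 _
    · exact le_rfl
  · intro y
    dsimp only
    split_ifs
    · exact hh1 _
    · exact zero_le_one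
  · intro y
    by_cases hyU : y ∈ c.σ '' ball (dev x) r
    · refine ⟨_, hU.mem_nhds hyU, 3 / r, by positivity, fun z hz w hw => ?_⟩
      dsimp only
      rw [if_pos hz, if_pos hw, Real.norm_eq_abs]
      exact hlip _ _
    · have hyS : y ∉ c.σ '' closedBall (dev x) (2 * r / 3) := fun h2 => hyU (hSU h2)
      refine ⟨_, hSc.isClosed.isOpen_compl.mem_nhds hyS, 0, le_rfl, fun z hz w hw => ?_⟩
      have hz0 : ∀ z, z ∉ c.σ '' closedBall (dev x) (2 * r / 3) →
          (if z ∈ c.σ '' ball (dev x) r then h (dev z) else 0) = 0 := by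
        intro z hz
        by_cases hzU : z ∈ c.σ '' ball (dev x) r
        · rw [if_pos hzU]
          have h2 : dev z ∉ closedBall (dev x) (2 * r / 3) := fun h3 =>
            hz ⟨dev z, h3, (hdev z hzU).2⟩
          have h3 : 2 * r / 3 < ‖dev z - dev x‖ := by
            rw [mem_closedBall, dist_eq_norm, not_le] at h2
            exact h2
          have h4 : 2 - 3 * ‖dev z - dev x‖ / r ≤ 0 := by
            have h5 : 2 ≤ 3 * ‖dev z - dev x‖ / r := by
              rw [le_div_iff₀ hr0]; linarith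
            linarith
          show max 0 (min 1 (2 - 3 * ‖dev z - dev x‖ / r)) = 0
          exact max_eq_left ((min_le_right _ _).trans h4)
        · rw [if_neg hzU]
      dsimp only
      rw [hz0 z hz, hz0 w hw]
      simp

theorem exists_cov [Nonempty X] (hloc : IsLocalHomeomorph dev)
    (hcont : ∀ γ : Γ, Continuous fun x : X => γ • x)
    (hpd : ∀ K : Set X, IsCompact K → {γ : Γ | ∃ x ∈ K, γ • x ∈ K}.Finite)
    (hcc : ∃ K : Set X, IsCompact K ∧ ∀ x : X, ∃ γ : Γ, ∃ k ∈ K, γ • k = x)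
    (hfree : ∀ (γ : Γ) (x : X), γ • x = x → γ = 1) :
    ∃ (m : ℕ) (U S O : Fin m → Set X) (a : Fin m → X → ℝ), Cov Γ U S O a ∧ ∀ i, LL dev (a i) := by
  have h1 : ∀ x : X, ∃ (U S O : Set X) (a : X → ℝ), IsOpen U ∧ IsOpen O ∧ IsCompact S ∧ S ⊆ U ∧
      (∀ γ : Γ, ∀ y ∈ U, γ • y ∈ U → γ = 1) ∧ O ⊆ U ∧
      x ∈ O ∧ (∀ y, y ∉ S → a y = 0) ∧ (∀ y ∈ O, a y = 1) ∧ (∀ y, 0 ≤ a y) ∧ (∀ y, a y ≤ 1) ∧
      LL dev a := by
    intro x
    obtain ⟨N, hN, hd⟩ := disj_nhd hloc hcont hpd hfree x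
    obtain ⟨U, S, O, a, h1, h2, h3, h4, h5, h6, h7, h8, h9, h10, h11, h12⟩ := bump hloc hN
    exact ⟨U, S, O, a, h1, h2, h3, h4, fun γ y hy hy' => hd γ y (h5 hy) (h5 hy'), h6, h7, h8, h9,
      h10, h11, h12⟩
  choose U S O a hU hO hS hSU hd hOU hx h0 h1' hge hle hLL using h1
  obtain ⟨K, hK, hKc⟩ := hcc
  obtain ⟨t, htK, ht⟩ := hK.elim_nhds_subcover O fun x _ => (hO x).mem_nhds (hx x)
  let e := t.equivFin
  refine ⟨t.card, fun i => U (e.symm i), fun i => S (e.symm i), fun i => O (e.symm i),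
    fun i => a (e.symm i), ⟨fun i => hU _, fun i => hO _, fun i => hSU _, fun i => hd _,
      fun i => h0 _, fun i => h1' _, fun i => hOU _, fun i => hge _, fun i => hle _,
      fun i x h => off_nhd hloc hcont hpd (hS _) h, fun x => ?_⟩, fun i => hLL _⟩
  obtain ⟨γ, k, hk, rfl⟩ := hKc x
  obtain ⟨y, hy, hky⟩ := mem_iUnion₂.1 (ht hk)
  refine ⟨e ⟨y, hy⟩, γ⁻¹, ?_⟩
  rw [inv_smul_smul]
  show k ∈ O (e.symm (e ⟨y, hy⟩))
  rw [Equiv.symm_apply_apply]
  exact hky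

end cov

end Pool.Agent.U352.CI
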