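import Mathlib

/-!
# Equivariant maps to contractible sets

A group `Γ` acts on `X`. The sets `U i` are moved off themselves by all elements other than `1`, and
the translates of the `O i` cover `X`. A contractible set `Y` with an action of `Γ` is the target of
an equivariant map from `X`; it is regular (continuous, locally Lipschitz) in the sense of an
abstract property `R f x`.
-/

set_option autoImplicit false

open Set Filter Topology

namespace Pool.Agent.U352.CI

section eng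
variable {X Γ F : Type} [TopologicalSpace X] [Group Γ] [MulAction Γ X]

/-- an action of the group on the set `Y` -/
structure Act (act : Γ → F → F) (Y : Set F) : Prop where
  mem : ∀ γ, ∀ y ∈ Y, act γ y ∈ Y
  one : ∀ y ∈ Y, act 1 y = y
  mul : ∀ γ δ, ∀ y ∈ Y, act (γ * δ) y = act γ (act δ y)

theorem Act.inv_act {act : Γ → F → F} {Y : Set F} (h : Act act Y) (γ : Γ) {y : F} (hy : y ∈ Y) :
    act γ⁻¹ (act γ y) = y := by
  rw [← h.mul _ _ y hy, inv_mul_cancel, h.one y hy]

theorem Act.act_inv {act : Γ → F → F} {Y : Set F} (h : Act act Y) (γ : Γ) {y : F} (hy : y ∈ Y) :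
    act γ (act γ⁻¹ y) = y := by
  rw [← h.mul _ _ y hy, mul_inv_cancel, h.one y hy]

/-- a contraction of `Y` to `p` -/
structure Contr (Φ : ℝ → F → F) (Y : Set F) (p : F) : Prop where
  mem : ∀ t, 0 ≤ t → t ≤ 1 → ∀ y ∈ Y, Φ t y ∈ Y
  zero : ∀ y ∈ Y, Φ 0 y = y
  one : ∀ y ∈ Y, Φ 1 y = p
  base : p ∈ Y

/-- small open sets and cut-off functions whose translates cover the space -/
structure Cov (Γ : Type) [Group Γ] [MulAction Γ X] {m : ℕ} (U S O : Fin m → Set X)
    (a : Fin m → X → ℝ) : Prop where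
  openU : ∀ i, IsOpen (U i)
  openO : ∀ i, IsOpen (O i)
  sub : ∀ i, S i ⊆ U i
  disj : ∀ i, ∀ γ : Γ, ∀ x ∈ U i, γ • x ∈ U i → γ = 1
  zero : ∀ i x, x ∉ S i → a i x = 0
  one : ∀ i, ∀ x ∈ O i, a i x = 1
  OU : ∀ i, O i ⊆ U i
  ge : ∀ i x, 0 ≤ a i x
  le : ∀ i x, a i x ≤ 1
  off : ∀ i x, (∀ γ : Γ, γ • x ∉ S i) → ∃ N ∈ 𝓝 x, ∀ y ∈ N, ∀ γ : Γ, γ • y ∉ S i
  cov : ∀ x, ∃ i, ∃ γ : Γ, γ • x ∈ O i

theorem engine (hcont : ∀ γ : Γ, Continuous fun x : X => γ • x)
    (hfree : ∀ (γ : Γ) (x : X), γ • x = x → γ = 1)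
    {act : Γ → F → F} {Y : Set F} (hact : Act act Y) {Φ : ℝ → F → F} {p : F} (hΦ : Contr Φ Y p)
    {m : ℕ} {U S O : Fin m → Set X} {a : Fin m → X → ℝ} (hc : Cov Γ U S O a)
    (R : (X → F) → X → Prop)
    (R1 : ∀ (f g : X → F) (x : X), (∀ᶠ y in 𝓝 x, f y = g y) → R g x → R f x)
    (R2 : ∀ (c : F) (x : X), R (fun _ => c) x)
    (R3 : ∀ (f : X → F), (∀ x, f x ∈ Y) → ∀ x, R f x → ∀ (i : Fin m) (γ : Γ),
      R (fun y => act γ (Φ (a i (γ⁻¹ • y)) (act γ⁻¹ (f y)))) x) :
    ∃ f : X → F, (∀ x, f x ∈ Y) ∧ (∀ (γ : Γ) x, f (γ • x) = act γ (f x)) ∧ ∀ x, R f x := by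
  classical
  have key : ∀ s : Finset (Fin m), ∃ f : X → F, (∀ x, f x ∈ Y) ∧
      (∀ (γ : Γ) x, f (γ • x) = act γ (f x)) ∧
      ∀ x, (∃ i ∈ s, ∃ γ : Γ, γ • x ∈ O i) → R f x := by
    intro s
    induction s using Finset.induction_on with
    | empty =>
      -- any equivariant map
      let q : X → MulAction.orbitRel.Quotient Γ X := Quotient.mk _
      have hex : ∀ x : X, ∃ γ : Γ, γ • (q x).out = x := by
        intro x
        have h1 : q (q x).out = q x := Quotient.out_eq _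
        have h2 : (MulAction.orbitRel Γ X) (q x).out x := Quotient.exact h1
        have h3 : x ∈ MulAction.orbit Γ (q x).out := by
          have := (MulAction.orbitRel Γ X).symm h2
          exact (MulAction.orbitRel_apply).1 this
        exact h3
      choose g hg using hex
      have hq : ∀ (γ : Γ) x, q (γ • x) = q x := by
        intro γ x
        apply Quotient.sound
        exact (MulAction.orbitRel_apply).2 ⟨γ, rfl⟩
      refine ⟨fun x => act (g x) p, fun x => hact.mem _ _ hΦ.base, fun γ x => ?_, ?_⟩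
      · have h1 : g (γ • x) = γ * g x := by
          have h2 : (γ * g x)⁻¹ * g (γ • x) = 1 := by
            refine hfree _ (q x).out ?_
            have h3 := hg (γ • x)
            rw [hq] at h3
            rw [mul_smul, h3, mul_inv_rev, mul_smul, inv_smul_smul]
            exact inv_smul_eq_iff.2 (hg x).symm
          calc g (γ • x) = (γ * g x) * ((γ * g x)⁻¹ * g (γ • x)) := by group
            _ = γ * g x := by rw [h2, mul_one]
        show act (g (γ • x)) p = act γ (act (g x) p)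
        rw [h1, hact.mul _ _ p hΦ.base]
      · rintro x ⟨i, hi, _⟩
        simp at hi
    | insert k s hk ih =>
      obtain ⟨f, hfY, hfe, hfR⟩ := ih
      let W : Set X := {x | ∃ γ : Γ, γ⁻¹ • x ∈ U k}
      let f' : X → F := fun x => if h : ∃ γ : Γ, γ⁻¹ • x ∈ U k then
        act h.choose (Φ (a k (h.choose⁻¹ • x)) (f (h.choose⁻¹ • x))) else f x
      have uniq : ∀ (x : X) (γ δ : Γ), γ⁻¹ • x ∈ U k → δ⁻¹ • x ∈ U k → γ = δ := by
        intro x γ δ h1 h2
        have h3 : (δ⁻¹ * γ) • γ⁻¹ • x ∈ U k := by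
          rw [mul_smul, smul_inv_smul]
          exact h2
        have h4 := hc.disj k _ _ h1 h3
        have h5 : δ * (δ⁻¹ * γ) = δ * 1 := by rw [h4]
        rwa [mul_one, mul_inv_cancel_left] at h5
      have form : ∀ (x : X) (γ : Γ), γ⁻¹ • x ∈ U k →
          f' x = act γ (Φ (a k (γ⁻¹ • x)) (f (γ⁻¹ • x))) := by
        intro x γ h
        have hx : ∃ γ : Γ, γ⁻¹ • x ∈ U k := ⟨γ, h⟩
        have h1 : f' x = act hx.choose (Φ (a k (hx.choose⁻¹ • x)) (f (hx.choose⁻¹ • x))) :=
          dif_pos hx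
        rw [h1, uniq x _ γ hx.choose_spec h]
      have form0 : ∀ x : X, (¬ ∃ γ : Γ, γ⁻¹ • x ∈ U k) → f' x = f x := fun x h => dif_neg h
      have hf'Y : ∀ x, f' x ∈ Y := by
        intro x
        by_cases h : ∃ γ : Γ, γ⁻¹ • x ∈ U k
        · obtain ⟨γ, h⟩ := h
          rw [form x γ h]
          exact hact.mem _ _ (hΦ.mem _ (hc.ge _ _) (hc.le _ _) _ (hfY _))
        · rw [form0 x h]
          exact hfY x
      refine ⟨f', hf'Y, fun δ x => ?_, fun x hx => ?_⟩
      · by_cases h : ∃ γ : Γ, γ⁻¹ • x ∈ U k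
        · obtain ⟨γ, h⟩ := h
          have h1 : (δ * γ)⁻¹ • δ • x = γ⁻¹ • x := by
            rw [mul_inv_rev, mul_smul, inv_smul_smul]
          have h2 : (δ * γ)⁻¹ • δ • x ∈ U k := by rw [h1]; exact h
          rw [form x γ h, form (δ • x) (δ * γ) h2, h1, hact.mul]
          exact hΦ.mem _ (hc.ge _ _) (hc.le _ _) _ (hfY _)
        · have h' : ¬ ∃ γ : Γ, γ⁻¹ • δ • x ∈ U k := by
            rintro ⟨γ, h1⟩
            refine h ⟨δ⁻¹ * γ, ?_⟩
            rw [mul_inv_rev, inv_inv, mul_smul]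
            exact h1
          rw [form0 x h, form0 _ h', hfe]
      · -- regularity
        by_cases hO : ∃ γ : Γ, γ • x ∈ O k
        · obtain ⟨γ, hγ⟩ := hO
          refine R1 _ (fun _ => act γ⁻¹ p) x ?_ (R2 _ _)
          filter_upwards [((hcont γ).isOpen_preimage _ (hc.openO k)).mem_nhds hγ] with y hy
          have hy' : γ • y ∈ O k := hy
          have h1 : (γ⁻¹)⁻¹ • y ∈ U k := by rw [inv_inv]; exact hc.OU k hy'
          rw [form y γ⁻¹ h1, inv_inv, hc.one k _ hy', hΦ.one _ (hfY _)]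
        · have hRf : R f x := by
            apply hfR
            obtain ⟨i, hi, γ, hγ⟩ := hx
            rcases Finset.mem_insert.1 hi with rfl | hi
            · exact absurd ⟨γ, hγ⟩ hO
            · exact ⟨i, hi, γ, hγ⟩
          by_cases h : ∃ γ : Γ, γ⁻¹ • x ∈ U k
          · obtain ⟨γ, h⟩ := h
            refine R1 _ _ x ?_ (R3 f hfY x hRf k γ)
            filter_upwards [((hcont γ⁻¹).isOpen_preimage _ (hc.openU k)).mem_nhds h] with y hy
            rw [form y γ hy, hfe]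
          · refine R1 _ f x ?_ hRf
            obtain ⟨N, hN, hN'⟩ := hc.off k x (fun γ hγ => h ⟨γ⁻¹, by
              rw [inv_inv]; exact hc.sub k hγ⟩)
            filter_upwards [hN] with y hy
            by_cases h1 : ∃ γ : Γ, γ⁻¹ • y ∈ U k
            · obtain ⟨γ, h1⟩ := h1
              rw [form y γ h1, hc.zero k _ (hN' y hy _), hΦ.zero _ (hfY _), hfe,
                hact.act_inv _ (hfY _)]
            · exact form0 y h1
  obtain ⟨f, h1, h2, h3⟩ := key Finset.univ
  refine ⟨f, h1, h2, fun x => h3 x ?_⟩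
  obtain ⟨i, γ, h⟩ := hc.cov x
  exact ⟨i, Finset.mem_univ _, γ, h⟩

end eng

end Pool.Agent.U352.CI
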