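import Pool.Agent.U352.CI.Mark

/-!
# Graphs of locally Lipschitz maps are locally Lipschitz contractible
-/

set_option autoImplicit false

open Set Filter Topology Metric

namespace Pool.Agent.U352.CI

/-- There is a locally Lipschitz homotopy from the identity of `Y` to a constant map. -/
def LipC (Y : Type) [MetricSpace Y] : Prop :=
  ∃ (Φ : unitInterval × Y → Y) (p : Y), LocallyLipschitz Φ ∧ (∀ y, Φ (0, y) = y) ∧
    ∀ y, Φ (1, y) = p

section
variable {E : Type} [NormedAddCommGroup E] [NormedSpace ℝ E] [FiniteDimensional ℝ E]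

omit [NormedSpace ℝ E] [FiniteDimensional ℝ E] in
theorem locLip_mk {A : Type} [PseudoMetricSpace A] {C : Set E} {f : A → E} (hf : LocallyLipschitz f)
    (h : ∀ a, f a ∈ C) : LocallyLipschitz fun a => (⟨f a, h a⟩ : C) := by
  intro a
  obtain ⟨K, t, ht, hK⟩ := hf a
  exact ⟨K, t, ht, fun x hx y hy => hK hx hy⟩

theorem graph_lipC {F F' : Submodule ℝ E} (hc : IsCompl F F') {φ : F → F'}
    (hφ : LocallyLipschitz φ) {C : Set E} (hC : C = {x | ∃ u : F, x = (u : E) + (φ u : E)}) :
    LipC C := by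
  subst hC
  let π : E →L[ℝ] F := LinearMap.toContinuousLinearMap (F.projectionOnto F' hc)
  have hπ : ∀ u : F, π ((u : E) + (φ u : E)) = u := by
    intro u
    show F.projectionOnto F' hc ((u : E) + (φ u : E)) = u
    rw [map_add, Submodule.projectionOnto_apply_left,
      Submodule.projectionOnto_apply_right, add_zero]
  let ψ : F → {x | ∃ u : F, x = (u : E) + (φ u : E)} := fun u => ⟨(u : E) + (φ u : E), u, rfl⟩
  have hψ : LocallyLipschitz ψ := by
    refine locLip_mk (C := {x | ∃ u : F, x = (u : E) + (φ u : E)}) (f := fun u : F => (u : E) + (φ u : E)) ?_ _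
    have h1 : LocallyLipschitz (fun u : F => (u : E)) :=
      (LipschitzWith.subtype_val _).locallyLipschitz
    have h2 : LocallyLipschitz (fun u : F => (φ u : E)) :=
      ((LipschitzWith.subtype_val (F' : Set E)).locallyLipschitz).comp hφ
    exact h1.add h2
  let g : ℝ × E → F := fun z => (1 - z.1) • π z.2
  have hg : LocallyLipschitz g := by
    have h : ContDiff ℝ 1 g := by
      exact (contDiff_const.sub contDiff_fst).smul (π.contDiff.comp contDiff_snd)
    exact h.locallyLipschitz
  let i : unitInterval × {x | ∃ u : F, x = (u : E) + (φ u : E)} → ℝ × E :=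
    fun z => ((z.1 : ℝ), (z.2 : E))
  have hi : LocallyLipschitz i := by
    have h1 : LipschitzWith 1 (fun z : unitInterval × {x | ∃ u : F, x = (u : E) + (φ u : E)} =>
        ((z.1 : ℝ))) := by
      have h := (LipschitzWith.subtype_val (unitInterval)).comp (LipschitzWith.prod_fst
        (α := unitInterval) (β := {x | ∃ u : F, x = (u : E) + (φ u : E)}))
      rw [one_mul] at h
      exact h
    have h2 : LipschitzWith 1 (fun z : unitInterval × {x | ∃ u : F, x = (u : E) + (φ u : E)} =>
        ((z.2 : E))) := by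
      have h := (LipschitzWith.subtype_val {x | ∃ u : F, x = (u : E) + (φ u : E)}).comp
        (LipschitzWith.prod_snd (α := unitInterval)
          (β := {x | ∃ u : F, x = (u : E) + (φ u : E)}))
      rw [one_mul] at h
      exact h
    exact (h1.prodMk h2).locallyLipschitz
  refine ⟨fun z => ψ (g (i z)), ψ 0, hψ.comp (hg.comp hi), ?_, ?_⟩
  · rintro ⟨y, u, hu⟩
    apply Subtype.ext
    have h1 : g (i (0, ⟨y, u, hu⟩)) = u := by
      show (1 - (((0 : unitInterval) : ℝ))) • π y = u
      rw [hu, hπ]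
      simp
    show ((ψ (g (i (0, ⟨y, u, hu⟩)))) : E) = y
    rw [h1, hu]
  · rintro ⟨y, u, hu⟩
    have h1 : g (i (1, ⟨y, u, hu⟩)) = 0 := by
      show (1 - (((1 : unitInterval) : ℝ))) • π y = 0
      simp
    show ψ (g (i (1, ⟨y, u, hu⟩))) = ψ 0
    rw [h1]

theorem graph_interior {F F' : Submodule ℝ E} (hc : IsCompl F F') (hF : F ≠ ⊤) {φ : F → F'}
    (hφ : LocallyLipschitz φ) : interior {x | ∃ u : F, x = (u : E) + (φ u : E)} = ∅ := by
  rw [eq_empty_iff_forall_notMem]
  intro x hx
  -- the graph meets every translate of `F'` in one point only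
  have hF' : F' ≠ ⊥ := by
    intro h
    have h1 := hc.sup_eq_top
    rw [h, sup_bot_eq] at h1
    exact hF h1
  obtain ⟨v, hv, hv0⟩ := (Submodule.ne_bot_iff _).1 hF'
  obtain ⟨r, hr, hrs⟩ := Metric.mem_nhds_iff.1 (mem_interior_iff_mem_nhds.1 hx)
  have hvn : 0 < ‖v‖ := norm_pos_iff.2 hv0
  have h1 : x + (r / (2 * ‖v‖)) • v ∈ ball x r := by
    rw [mem_ball, dist_eq_norm, add_sub_cancel_left, norm_smul, Real.norm_eq_abs,
      abs_of_pos (by positivity)]
    have : r / (2 * ‖v‖) * ‖v‖ = r / 2 := by field_simp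
    rw [this]
    linarith
  obtain ⟨u, hu⟩ := interior_subset hx
  obtain ⟨w, hw⟩ := hrs h1
  rw [hu] at hw
  have h2 : ((u - w : F) : E) = ((φ w - φ u - ⟨(r / (2 * ‖v‖)) • v, F'.smul_mem _ hv⟩ : F') : E) := by
    push_cast
    have h3 : (u : E) - w = (u : E) + (φ u : E) + (r / (2 * ‖v‖)) • v - (φ u : E)
      - (r / (2 * ‖v‖)) • v - w := by abel
    rw [h3, hw]
    abel
  have h4 : ((u - w : F) : E) ∈ F ⊓ F' := ⟨(u - w).2, by rw [h2]; exact Subtype.coe_prop _⟩
  rw [hc.inf_eq_bot, Submodule.mem_bot] at h4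
  have h5 : u = w := by
    have h6 : u - w = 0 := Subtype.ext h4
    exact sub_eq_zero.1 h6
  rw [← h5] at hw
  have h7 : (r / (2 * ‖v‖)) • v = 0 := by
    have h8 : (u : E) + (φ u : E) + (r / (2 * ‖v‖)) • v = (u : E) + (φ u : E) + 0 := by
      rw [hw, add_zero]
    exact add_left_cancel h8
  rcases smul_eq_zero.1 h7 with h | h
  · have : 0 < r / (2 * ‖v‖) := by positivity
    exact this.ne' h
  · exact hv0 h

end

end Pool.Agent.U352.CI
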