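import Mathlib
import Pool.Agent.Helper133.Brouwer

/-!
# The image of a continuous map with an invertible derivative at one point has interior points
-/

set_option autoImplicit false

open Set Filter Topology Metric

namespace Pool.Agent.U352.CI

theorem interior_of_deriv {E : Type} [NormedAddCommGroup E] [NormedSpace ℝ E]
    [FiniteDimensional ℝ E] {g : E → E} {U : Set E} (hU : IsOpen U) (hg : ContinuousOn g U) {q : E}
    (hq : q ∈ U) {B : E →L[ℝ] E} (hB : HasFDerivAt g B q) (hdet : B.det ≠ 0) :
    (interior (g '' U)).Nonempty := by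
  have : CompleteSpace E := FiniteDimensional.complete ℝ E
  let e : E ≃L[ℝ] E := B.toContinuousLinearEquivOfDetNeZero hdet
  have he : ∀ v, e.symm (B v) = v := by
    intro v
    have h1 : (e : E →L[ℝ] E) v = B v := by
      rw [ContinuousLinearMap.coe_toContinuousLinearEquivOfDetNeZero]
    have h2 : e v = B v := h1
    rw [← h2, e.symm_apply_apply]
  set M : ℝ := ‖(e.symm : E →L[ℝ] E)‖ + 1 with hM
  have hM0 : 0 < M := by positivity
  have hMle : ∀ v, ‖e.symm v‖ ≤ M * ‖v‖ := by
    intro v
    have h1 := (e.symm : E →L[ℝ] E).le_opNorm v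
    calc ‖e.symm v‖ ≤ ‖(e.symm : E →L[ℝ] E)‖ * ‖v‖ := h1
      _ ≤ M * ‖v‖ := by gcongr; linarith
  have h1 := Asymptotics.isLittleO_iff.1 hB.isLittleO (show (0 : ℝ) < 1 / (2 * M) by positivity)
  obtain ⟨r, hr, hrs⟩ := Metric.nhds_basis_closedBall.mem_iff.1 (inter_mem h1 (hU.mem_nhds hq))
  have hrU : ∀ h : E, ‖h‖ ≤ r → q + h ∈ U := by
    intro h hh
    refine (hrs ?_).2
    rw [mem_closedBall, dist_eq_norm, add_sub_cancel_left]
    exact hh
  have hrE : ∀ h : E, ‖h‖ ≤ r → ‖g (q + h) - g q - B h‖ ≤ 1 / (2 * M) * r := by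
    intro h hh
    have h2 := (hrs (show q + h ∈ closedBall q r by
      rw [mem_closedBall, dist_eq_norm, add_sub_cancel_left]; exact hh)).1
    have h3 : ‖g (q + h) - g q - B (q + h - q)‖ ≤ 1 / (2 * M) * ‖q + h - q‖ := h2
    rw [add_sub_cancel_left] at h3
    exact h3.trans (by gcongr)
  let κ : E → E := fun h => (r / max r ‖h‖) • h
  have hmax : ∀ h : E, 0 < max r ‖h‖ := fun h => lt_max_of_lt_left hr
  have hκc : Continuous κ := by
    refine Continuous.smul (continuous_const.div (continuous_const.max continuous_norm)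
      fun h => (hmax h).ne') continuous_id
  have hκ : ∀ h, ‖κ h‖ ≤ r := by
    intro h
    show ‖(r / max r ‖h‖) • h‖ ≤ r
    rw [norm_smul, Real.norm_eq_abs, abs_of_pos (div_pos hr (hmax h)), div_mul_eq_mul_div,
      div_le_iff₀ (hmax h)]
    gcongr
    exact le_max_right _ _
  have hκid : ∀ h : E, ‖h‖ ≤ r → κ h = h := by
    intro h hh
    show (r / max r ‖h‖) • h = h
    rw [max_eq_left hh, div_self hr.ne', one_smul]
  refine ⟨g q, mem_interior.2 ⟨ball (g q) (r / (2 * M)), ?_, isOpen_ball,
    mem_ball_self (by positivity)⟩⟩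
  intro y hy
  rw [mem_ball, dist_eq_norm] at hy
  let T : E → E := fun h => κ h - e.symm (g (q + κ h) - y)
  have hTc : Continuous T := by
    have h2 : Continuous fun h => g (q + κ h) :=
      hg.comp_continuous (continuous_const.add hκc) fun h => hrU _ (hκ h)
    exact hκc.sub (e.symm.continuous.comp (h2.sub continuous_const))
  have hTb : ∀ h, ‖T h‖ ≤ r := by
    intro h
    have h2 : T h = - e.symm ((g (q + κ h) - g q - B (κ h)) + (g q - y)) := by
      show κ h - e.symm (g (q + κ h) - y) = _
      have h3 : (g (q + κ h) - g q - B (κ h)) + (g q - y) = (g (q + κ h) - y) - B (κ h) := by abel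
      rw [h3, map_sub e.symm (g (q + κ h) - y) (B (κ h)), he]
      abel
    rw [h2, norm_neg]
    calc ‖e.symm ((g (q + κ h) - g q - B (κ h)) + (g q - y))‖
        ≤ M * ‖(g (q + κ h) - g q - B (κ h)) + (g q - y)‖ := hMle _
      _ ≤ M * (1 / (2 * M) * r + r / (2 * M)) := by
          gcongr
          refine (norm_add_le _ _).trans (add_le_add (hrE _ (hκ h)) ?_)
          rw [norm_sub_rev]
          exact hy.le
      _ = r := by field_simp; ring
  obtain ⟨h, hh⟩ := Pool.Agent.Helper133.Brouwer.brouwer T hTc r hTb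
  have h2 : ‖h‖ ≤ r := by rw [← hh]; exact hTb h
  have h3 : h - e.symm (g (q + h) - y) = h := by
    have h4 : T h = h - e.symm (g (q + h) - y) := by
      show κ h - e.symm (g (q + κ h) - y) = _
      rw [hκid h h2]
    rw [← h4, hh]
  have h5 : e.symm (g (q + h) - y) = 0 := by
    have := sub_eq_self.1 h3
    exact this
  have h6 : g (q + h) - y = 0 := by
    have := congrArg e h5
    rwa [e.apply_symm_apply, map_zero] at this
  exact ⟨q + h, hrU h h2, sub_eq_zero.1 h6⟩

end Pool.Agent.U352.CI
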