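import Pool.Agent.U352.CI.Cov
import Pool.Agent.U352.CI.Open
import Pool.Agent.W689.Mk.Av

/-!
# Locally Lipschitz equivariant maps to contractible spaces
-/

set_option autoImplicit false

open Set Filter Topology Metric

namespace Pool.Agent.U352.CI

open Pool.Agent.W689.Mk

section ll
variable {X E : Type} [TopologicalSpace X] [NormedAddCommGroup E] {dev : X → E}

/-- locally Lipschitz at a point, in affine charts -/
def LLat {Y : Type} [PseudoMetricSpace Y] (dev : X → E) (u : X → Y) (x : X) : Prop :=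
  ∃ U ∈ 𝓝 x, ∃ L : ℝ, 0 ≤ L ∧ ∀ y ∈ U, ∀ z ∈ U, dist (u y) (u z) ≤ L * ‖dev y - dev z‖

theorem LLat.congr {Y : Type} [PseudoMetricSpace Y] {f g : X → Y} {x : X}
    (h : ∀ᶠ y in 𝓝 x, f y = g y) (hg : LLat dev g x) : LLat dev f x := by
  obtain ⟨U, hU, L, hL, H⟩ := hg
  refine ⟨U ∩ {y | f y = g y}, inter_mem hU h, L, hL, fun y hy z hz => ?_⟩
  rw [show f y = g y from hy.2, show f z = g z from hz.2]
  exact H y hy.1 z hz.1

theorem LLat.const {Y : Type} [PseudoMetricSpace Y] (c : Y) (x : X) :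
    LLat dev (fun _ => c) x :=
  ⟨univ, univ_mem, 0, le_rfl, fun y _ z _ => by simp⟩

theorem LLat.continuousAt {Y : Type} [PseudoMetricSpace Y] (hdev : Continuous dev) {u : X → Y}
    {x : X} (hu : LLat dev u x) : ContinuousAt u x := by
  obtain ⟨U, hU, L, hL, H⟩ := hu
  have hx : x ∈ U := mem_of_mem_nhds hU
  rw [ContinuousAt, tendsto_iff_dist_tendsto_zero]
  have h1 : Tendsto (fun y => L * ‖dev y - dev x‖) (𝓝 x) (𝓝 0) := by
    have h2 : Tendsto (fun y => L * ‖dev y - dev x‖) (𝓝 x) (𝓝 (L * ‖dev x - dev x‖)) :=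
      ((hdev.sub continuous_const).norm.const_smul L).tendsto x |>.congr fun y => rfl
    simpa using h2
  refine squeeze_zero' (Eventually.of_forall fun y => dist_nonneg) ?_ h1
  filter_upwards [hU] with y hy
  exact H y hy x hx

theorem LLat.comp {Y Y' : Type} [PseudoMetricSpace Y] [PseudoMetricSpace Y']
    (hdev : Continuous dev) {u : X → Y} {x : X} (hu : LLat dev u x) {φ : Y → Y'}
    (hφ : LocallyLipschitz φ) : LLat dev (fun y => φ (u y)) x := by
  have hc := hu.continuousAt hdev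
  obtain ⟨U, hU, L, hL, H⟩ := hu
  obtain ⟨K, t, ht, hK⟩ := hφ (u x)
  refine ⟨U ∩ u ⁻¹' t, inter_mem hU (hc ht), K * L, by positivity, fun y hy z hz => ?_⟩
  calc dist (φ (u y)) (φ (u z)) ≤ K * dist (u y) (u z) := hK.dist_le_mul _ hy.2 _ hz.2
    _ ≤ K * (L * ‖dev y - dev z‖) := by gcongr; exact H y hy.1 z hz.1
    _ = K * L * ‖dev y - dev z‖ := by ring

theorem LLat.prod {Y Y' : Type} [PseudoMetricSpace Y] [PseudoMetricSpace Y'] {u : X → Y}
    {v : X → Y'} {x : X} (hu : LLat dev u x) (hv : LLat dev v x) :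
    LLat dev (fun y => (u y, v y)) x := by
  obtain ⟨U, hU, L, hL, H⟩ := hu
  obtain ⟨U', hU', L', hL', H'⟩ := hv
  refine ⟨U ∩ U', inter_mem hU hU', L + L', by positivity, fun y hy z hz => ?_⟩
  rw [Prod.dist_eq]
  refine max_le ?_ ?_
  · refine (H y hy.1 z hz.1).trans ?_
    have : 0 ≤ L' * ‖dev y - dev z‖ := by positivity
    rw [add_mul]; linarith
  · refine (H' y hy.2 z hz.2).trans ?_
    have : 0 ≤ L * ‖dev y - dev z‖ := by positivity
    rw [add_mul]; linarith

end ll

section markus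
variable {X Γ E : Type} [TopologicalSpace X] [T2Space X] [SecondCountableTopology X] [Nonempty X]
  [Group Γ] [MulAction Γ X]
  [NormedAddCommGroup E] [NormedSpace ℝ E] [FiniteDimensional ℝ E]
  {dev : X → E} {hol : Γ →* (E ≃ᵃ[ℝ] E)}

theorem markus (D : AffData X Γ E dev hol) (hfree : ∀ (γ : Γ) (x : X), γ • x = x → γ = 1)
    {Y : Type} [MetricSpace Y] [MulAction Γ Y] (hact : ∀ γ : Γ, LocallyLipschitz fun y : Y => γ • y)
    {Φ : unitInterval × Y → Y} {p : Y} (hΦ : LocallyLipschitz Φ) (h0 : ∀ y, Φ (0, y) = y)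
    (h1 : ∀ y, Φ (1, y) = p) {q : Y → E} (hq : LocallyLipschitz q)
    (hqe : ∀ (γ : Γ) (y : Y), q (γ • y) = hol γ (q y)) : (interior (range q)).Nonempty := by
  classical
  obtain ⟨m, U, S, O, a, hc, haL⟩ := exists_cov (Γ := Γ) D.loc D.cont D.pd D.cc hfree
  let pr : ℝ → unitInterval := Set.projIcc 0 1 zero_le_one
  have hprL : LocallyLipschitz pr := by
    have h : LipschitzWith 1 pr := LipschitzWith.projIcc _
    exact h.locallyLipschitz
  have hpr0 : pr 0 = 0 := by
    show Set.projIcc 0 1 zero_le_one (0 : ℝ) = 0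
    exact Set.projIcc_left (zero_le_one (α := ℝ))
  have hpr1 : pr 1 = 1 := by
    show Set.projIcc 0 1 zero_le_one (1 : ℝ) = 1
    exact Set.projIcc_right (zero_le_one (α := ℝ))
  have hactY : Act (fun (γ : Γ) (y : Y) => γ • y) (univ : Set Y) :=
    ⟨fun _ _ _ => trivial, fun y _ => one_smul _ y, fun γ δ y _ => mul_smul γ δ y⟩
  have hcon : Contr (fun t y => Φ (pr t, y)) (univ : Set Y) p :=
    ⟨fun _ _ _ _ _ => trivial, fun y _ => by rw [hpr0]; exact h0 y,
      fun y _ => by rw [hpr1]; exact h1 y, trivial⟩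
  obtain ⟨f, -, hfe, hfL⟩ := engine D.cont hfree hactY hcon hc (LLat dev)
    (fun f g x h hg => hg.congr h) (fun c x => LLat.const c x) (by
      intro f _ x hf i γ
      have h2 : LLat dev (fun y => (γ⁻¹ • f y : Y)) x := hf.comp D.loc.continuous (hact γ⁻¹)
      have h3 : LLat dev (fun y => a i (γ⁻¹ • y)) x := by
        obtain ⟨V, hV, L, hL, H⟩ := (haL i).smul_group D γ⁻¹ x
        exact ⟨V, hV, L, hL, fun y hy z hz => by rw [dist_eq_norm]; exact H y hy z hz⟩
      have h4 : LLat dev (fun y => pr (a i (γ⁻¹ • y))) x := h3.comp D.loc.continuous hprL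
      exact ((h4.prod h2).comp D.loc.continuous hΦ).comp D.loc.continuous (hact γ))
  let F : X → E := fun x => q (f x)
  have hFL : LL dev F := by
    intro x
    obtain ⟨V, hV, L, hL, H⟩ := (hfL x).comp D.loc.continuous hq
    exact ⟨V, hV, L, hL, fun y hy z hz => by
      have := H y hy z hz
      rw [dist_eq_norm] at this
      exact this⟩
  have hFe : ∀ (γ : Γ) x, F (γ • x) = hol γ (F x) := by
    intro γ x
    show q (f (γ • x)) = hol γ (q (f x))
    rw [hfe, hqe]
  by_contra hint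
  refine principle D (vf_of_map D hFL hFe) fun V σ hσ z hz A hA => ?_
  by_contra hdt
  have e1 : HasFDerivAt (fun q => F (σ q)) (A + ContinuousLinearMap.id ℝ E) z := by
    have h2 := hA.add (hasFDerivAt_id z)
    refine h2.congr_of_eventuallyEq ?_
    filter_upwards [hσ.isOpen.mem_nhds hz] with p hp
    simp [hσ.inv p hp]
  have e2 : (A + ContinuousLinearMap.id ℝ E).det ≠ 0 := by
    rw [add_comm]
    exact hdt
  have hFc : Continuous F := LL.continuous D.loc.continuous hFL
  obtain ⟨w, hw⟩ := interior_of_deriv hσ.isOpen (hFc.comp_continuousOn hσ.cont) hz e1 e2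
  refine hint ⟨w, interior_mono ?_ hw⟩
  rintro _ ⟨v, _, rfl⟩
  exact ⟨f (σ v), rfl⟩

end markus

end Pool.Agent.U352.CI
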